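import Mathlib
import Pool.Agent.Helper28.MT.Goals

/-!
Project MT (MP_bb782b_co), packet MT-NUM: real numbers (helper25).
-/

set_option autoImplicit false

namespace Pool.Agent.Helper25.MT

open Pool.Agent.Helper28.MT

lemma clog_le {k : ℕ} (hk : 2 ≤ k) : ((Nat.clog 2 k : ℕ) : ℝ) ≤ 3 * Real.log k := by
  have h1 : 2 ^ (Nat.clog 2 k - 1) < k := Nat.pow_pred_clog_lt_self (by norm_num) (by omega)
  have h2 : 1 ≤ Nat.clog 2 k := Nat.clog_pos (by norm_num) hk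
  have h3 : ((2 : ℝ)) ^ (Nat.clog 2 k - 1) < k := by exact_mod_cast h1
  have h4 : ((Nat.clog 2 k - 1 : ℕ) : ℝ) * Real.log 2 < Real.log k := by
    rw [← Real.log_pow]
    exact Real.log_lt_log (by positivity) h3
  have h5 : Real.log 2 ≤ Real.log k :=
    Real.log_le_log (by norm_num) (by exact_mod_cast hk)
  have h6 := Real.log_two_gt_d9
  rw [Nat.cast_sub h2] at h4
  push_cast at h4
  nlinarith

lemma cube_le {k : ℕ} (hk : 2 ≤ k) :
    ((2 : ℝ) ^ 36 * ((Nat.clog 2 k : ℕ) : ℝ) ^ 3) ≤ 2 ^ 41 * (Real.log k) ^ 3 := by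
  have h1 := clog_le hk
  have h0 : (0 : ℝ) ≤ ((Nat.clog 2 k : ℕ) : ℝ) := Nat.cast_nonneg _
  have h2 : ((Nat.clog 2 k : ℕ) : ℝ) ^ 3 ≤ (3 * Real.log k) ^ 3 := pow_le_pow_left₀ h0 h1 3
  have h3 : 0 ≤ (Real.log k) ^ 3 :=
    pow_nonneg (Real.log_nonneg (by exact_mod_cast (by omega : 1 ≤ k))) 3
  nlinarith

theorem mt_num : G_NUM := by
  refine ⟨1 / 2 ^ 41, by positivity, fun k hk => ?_⟩
  set h := Nat.clog 2 k with hh
  have hkh : k ≤ 2 ^ h := Nat.le_pow_clog (by norm_num) k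
  have hc := cube_le hk
  rw [← hh] at hc
  have hlog : 0 < Real.log k := Real.log_pos (by exact_mod_cast (by omega : 1 < k))
  have hl3 : 0 < (Real.log k) ^ 3 := pow_pos hlog 3
  have hh1 : 1 ≤ h := Nat.clog_pos (by norm_num) hk
  by_cases hA : k < 2 * (2 ^ 35 * h ^ 3)
  · refine ⟨h, 0, hkh, ?_, Or.inl rfl⟩
    rw [div_le_iff₀ hl3]
    have h1 : (k : ℝ) ≤ 2 * (2 ^ 35 * (h : ℝ) ^ 3) := by exact_mod_cast hA.le
    push_cast
    nlinarith
  · push Not at hA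
    have hApos : 0 < 2 ^ 35 * h ^ 3 := by positivity
    set A := 2 ^ 35 * h ^ 3 with hAdef
    set s := Nat.log 2 (k / A) with hs
    have h2 : 2 ≤ k / A := (Nat.le_div_iff_mul_le hApos).2 hA
    have h3 : 2 ^ s ≤ k / A := Nat.pow_log_le_self 2 (by omega)
    have h4 : k / A < 2 ^ (s + 1) := Nat.lt_pow_succ_log_self (by norm_num) _
    have h5 : 2 ^ s * A ≤ k := (Nat.le_div_iff_mul_le hApos).1 h3
    have h6 : k < 2 ^ (s + 1) * A := (Nat.div_lt_iff_lt_mul hApos).1 h4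
    have hs1 : 1 ≤ s := Nat.log_pos (by norm_num) h2
    have hsh : s ≤ h := by
      have h7 : 2 ^ s ≤ 2 ^ h := by
        calc 2 ^ s = 2 ^ s * 1 := (mul_one _).symm
          _ ≤ 2 ^ s * A := Nat.mul_le_mul_left _ hApos
          _ ≤ k := h5
          _ ≤ 2 ^ h := hkh
      exact (Nat.pow_le_pow_iff_right (by norm_num)).1 h7
    refine ⟨h, s, hkh, ?_, Or.inr ⟨hs1, hsh, ?_⟩⟩
    · rw [div_le_iff₀ hl3]
      have h7 : (k : ℝ) ≤ 2 ^ (s + 1) * (2 ^ 35 * (h : ℝ) ^ 3) := by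
        have : (k : ℝ) ≤ ((2 ^ (s + 1) * A : ℕ) : ℝ) := by exact_mod_cast h6.le
        refine le_trans this (le_of_eq ?_)
        rw [hAdef, Nat.cast_mul, Nat.cast_pow, Nat.cast_mul, Nat.cast_pow, Nat.cast_pow,
          Nat.cast_ofNat]
      have h8 : (0 : ℝ) < 2 ^ s := by positivity
      have h9 : (2 : ℝ) ^ s * (2 ^ 36 * (h : ℝ) ^ 3) ≤ 2 ^ s * (2 ^ 41 * (Real.log k) ^ 3) :=
        mul_le_mul_of_nonneg_left hc h8.le
      push_cast
      rw [pow_succ] at h7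
      have h10 : (k : ℝ) ≤ 2 ^ s * (2 ^ 41 * (Real.log k) ^ 3) := by
        refine le_trans h7 (le_trans (le_of_eq ?_) h9)
        ring
      calc (1 : ℝ) / 2 ^ 41 * k ≤ 1 / 2 ^ 41 * (2 ^ s * (2 ^ 41 * (Real.log k) ^ 3)) :=
            mul_le_mul_of_nonneg_left h10 (by positivity)
        _ = 2 ^ s * Real.log k ^ 3 := by ring
    · calc 16 * (2 ^ 31 * h * s ^ 2 * 2 ^ s) = 2 ^ 35 * h * s ^ 2 * 2 ^ s := by ring
        _ ≤ 2 ^ 35 * h * h ^ 2 * 2 ^ s := by gcongr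
        _ = 2 ^ s * A := by rw [hAdef]; ring
        _ ≤ k := h5

end Pool.Agent.Helper25.MT
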